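import Pool.Agent.Helper98.SK.Eqv

/-!
# The Skolem Problem: few candidates are enough

An algorithm is a computable function (Mathlib's `Computable`).

**Theorem.** (1) Let `k ≥ 1` and `d ≥ 1` (`d = ∞` is allowed). Suppose that for the integer linear
recurrence sequences of order at most `k ^ 2 * d` one of the following exists:
* an algorithm which lists at most `k` numbers, one of which is a bound for the isolated zeros,
* an algorithm which lists at most `k` numbers, one of which is the number of the isolated zeros,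
* an algorithm which gives a sequence of numbers with less than `k` changes which ends with a bound,
* a randomised algorithm which halts with a probability of more than `1 / (k + 1)` with a bound,
* a randomised algorithm which halts with a probability of more than `1 / (k + 1)` with the number of
  the isolated zeros.
Then the isolated zeros of the sequences of order at most `d` can be computed, and the Skolem Problem is
decidable for order at most `d`.
(2), (3) So for every single order `d` it is enough to have an algorithm which lists `κ D` candidates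
for order `D`, with `κ D / √D → 0`, or a randomised algorithm with success probability `ε D` for order
`D`, with `ε D * √D → ∞`.
(4) For `d = ∞` all this is equivalent to the decidability of the Skolem Problem, for every `k`.

Proof idea: `k` sequences of order at most `d` can be interleaved, which gives a sequence of order at
most `k ^ 2 * d`; a bound for its isolated zeros is a bound for those of all `k` sequences. If for some
`k - 1` sequences the first candidate is right whatever the last sequence is, then this gives a bound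
for all sequences. If not then for every `k - 1` sequences one can find a last one such that the first
candidate is refuted, and this leaves `k - 1` candidates for `k - 1` sequences.
-/

set_option autoImplicit false

namespace Pool.Agent.Results.MP_8d13b5_lc.FewCandidates

open Pool.Agent.H692R2.USS Pool.Agent.TH997.US Pool.Agent.TH997.SP
open Pool.Agent.Q49.EF Pool.Agent.Helper98.RA Pool.Agent.Helper98.SK
open scoped Classical

/-- `u` is the integer linear recurrence sequence given by the data `p = (c, a)`: the list `c` of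
coefficients `c_1, ..., c_d`, where `d ≥ 1` and `c_d ≠ 0`, and the list `a` of the `d` initial
values. The order is `d = p.1.length`. -/
def IsLRS (p : List ℤ × List ℤ) (u : ℕ → ℤ) : Prop :=
  p.1.length = p.2.length ∧ 1 ≤ p.1.length ∧ p.1.getD (p.1.length - 1) 0 ≠ 0 ∧
    (∀ i, i < p.1.length → u i = p.2.getD i 0) ∧
    ∀ n : ℕ, u (n + p.1.length) =
      ∑ j ∈ Finset.range p.1.length, p.1.getD j 0 * u (n + p.1.length - 1 - j)

/-- `n` is an isolated zero of `u`: it lies in no infinite arithmetic progression of zeros. -/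
def Isolated (u : ℕ → ℤ) (n : ℕ) : Prop := u n = 0 ∧ ∀ b, 0 < b → ∃ l, u (n + b * l) ≠ 0

/-- `c` is a bound for the isolated zeros of `u` -/
def Bound (u : ℕ → ℤ) (c : ℕ) : Prop := ∀ n, Isolated u n → n ≤ c

/-- `u` has exactly `m` isolated zeros -/
def Number (u : ℕ → ℤ) (m : ℕ) : Prop := {n | Isolated u n}.Finite ∧ {n | Isolated u n}.ncard = m

/-- The Skolem Problem is decidable for order at most `d`. -/
def Decides (d : ℕ∞) : Prop := ComputablePred fun p : List ℤ × List ℤ =>
  (p.1.length : ℕ∞) ≤ d ∧ ∃ u, IsLRS p u ∧ ∃ n, u n = 0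

/-- An algorithm computes the list of all isolated zeros for order at most `d`. -/
def Computes (d : ℕ∞) : Prop := ∃ A : List ℤ × List ℤ → List ℕ, Computable A ∧
  ∀ p u, IsLRS p u → (p.1.length : ℕ∞) ≤ d → ∀ n, n ∈ A p ↔ Isolated u n

/-- An algorithm lists for order at most `D` at most `k` numbers, one of which has the property `P`. -/
def Lists (P : (ℕ → ℤ) → ℕ → Prop) (k : ℕ) (D : ℕ∞) : Prop :=
  ∃ E : (List ℤ × List ℤ) × ℕ → Option ℕ, Computable E ∧
    ∀ p u, IsLRS p u → (p.1.length : ℕ∞) ≤ D →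
      {c | ∃ n, E (p, n) = some c}.encard ≤ k ∧ ∃ n c, E (p, n) = some c ∧ P u c

/-- An algorithm gives for order at most `D` a sequence of numbers with less than `k` changes which
ends with a number with the property `P`. -/
def Changes (P : (ℕ → ℤ) → ℕ → Prop) (k : ℕ) (D : ℕ∞) : Prop :=
  ∃ G : (List ℤ × List ℤ) × ℕ → ℕ, Computable G ∧
    ∀ p u, IsLRS p u → (p.1.length : ℕ∞) ≤ D →
      {n | G (p, n + 1) ≠ G (p, n)}.encard < k ∧ ∃ m, ∀ n, m ≤ n → P u (G (p, n))

/-- A randomised algorithm halts for order at most `D` with a probability of more than `1 / (k + 1)`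
with a number with the property `P`. -/
def Random (P : (ℕ → ℤ) → ℕ → Prop) (k : ℕ) (D : ℕ∞) : Prop :=
  ∃ R : (List ℤ × List ℤ) × (ℕ × ℕ) → Option ℕ, IsRandomised R ∧
    ∀ p u, IsLRS p u → (p.1.length : ℕ∞) ≤ D → 1 / ((k : ℝ) + 1) < prob R p (P u)

/-- An algorithm lists for order `D` at most `κ D` numbers, one of which has the property `P`. -/
def ListsBy (P : (ℕ → ℤ) → ℕ → Prop) (κ : ℕ → ℕ) : Prop :=
  ∃ E : (List ℤ × List ℤ) × ℕ → Option ℕ, Computable E ∧
    ∀ p u, IsLRS p u → {c | ∃ n, E (p, n) = some c}.encard ≤ κ p.1.length ∧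
      ∃ n c, E (p, n) = some c ∧ P u c

/-- A randomised algorithm halts for order `D` with a probability of at least `ε D` with a number with
the property `P`. -/
def RandomBy (P : (ℕ → ℤ) → ℕ → Prop) (ε : ℕ → ℝ) : Prop :=
  ∃ R : (List ℤ × List ℤ) × (ℕ × ℕ) → Option ℕ, IsRandomised R ∧
    ∀ p u, IsLRS p u → ε p.1.length ≤ prob R p (P u)

theorem isLRS_iff (p : List ℤ × List ℤ) (u : ℕ → ℤ) :
    IsLRS p u ↔ Val (cv p) ∧ u = sq (cv p) := by
  constructor
  · rintro ⟨h1, h2, h3, h4, h5⟩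
    have hv : Val (cv p) := (val_cv p).2 ⟨h1, h2, h3⟩
    exact ⟨hv, funext ((rec_iff hv u).1 ⟨h4, h5⟩)⟩
  · rintro ⟨hv, rfl⟩
    obtain ⟨h1, h2, h3⟩ := (val_cv p).1 hv
    obtain ⟨h4, h5⟩ := (rec_iff hv (sq (cv p))).2 fun _ => rfl
    exact ⟨h1, h2, h3, h4, h5⟩

lemma iso_iff {p : List ℤ × List ℤ} (hp : Val (cv p)) (n : ℕ) :
    Isolated (sq (cv p)) n ↔ Spor (cv p) n := (spor_iff hp n).symm

lemma bound_iff {p : List ℤ × List ℤ} (hp : Val (cv p)) (c : ℕ) :
    Bound (sq (cv p)) c ↔ V p c :=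
  forall_congr' fun n => imp_congr (iso_iff hp n) Iff.rfl

lemma number_iff {p : List ℤ × List ℤ} (hp : Val (cv p)) (m : ℕ) :
    Number (sq (cv p)) m ↔ {n | Spor (cv p) n}.ncard = m := by
  unfold Number
  simp only [iso_iff hp]
  exact ⟨fun h => h.2, fun h => ⟨spor_finite p, h⟩⟩

lemma decides_iff {d : ℕ∞} : Decides d ↔ ComputablePred (HasZero d) := by
  have h : ∀ p : List ℤ × List ℤ, ((p.1.length : ℕ∞) ≤ d ∧ ∃ u, IsLRS p u ∧ ∃ n, u n = 0) ↔
      HasZero d p := by
    intro p
    constructor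
    · rintro ⟨h1, u, h2, h3⟩
      obtain ⟨hv, rfl⟩ := (isLRS_iff p u).mp h2
      exact ⟨⟨hv, h1⟩, h3⟩
    · rintro ⟨⟨hv, h1⟩, h3⟩
      exact ⟨h1, _, (isLRS_iff p _).mpr ⟨hv, rfl⟩, h3⟩
  exact ⟨fun h1 => h1.of_eq h, fun h1 => h1.of_eq fun p => (h p).symm⟩

/-- everything from a bound -/
lemma of_bound {d : ℕ∞} (h : ∃ f : List ℤ × List ℤ → ℕ, Computable f ∧ ∀ p, Q d p → V p (f p)) :
    Decides d ∧ Computes d := by
  obtain ⟨f, h1, h2⟩ := h
  refine ⟨decides_iff.mpr (dec_of_bound h1 h2), ?_⟩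
  obtain ⟨pb, h3, h4⟩ := exists_pb
  refine ⟨fun p => lst pb p (f p + 1), lst_comp h3 (Computable.succ.comp h1), fun p u hu hd n => ?_⟩
  obtain ⟨hv, rfl⟩ := (isLRS_iff p u).mp hu
  rw [mem_lst, h4, iso_iff hv]
  exact ⟨fun h => h.2, fun h => ⟨Nat.lt_succ_of_le (h2 p ⟨hv, hd⟩ n h), h⟩⟩

lemma decides_zero : Decides ((0 : ℕ) : ℕ∞) ∧ Computes ((0 : ℕ) : ℕ∞) := by
  refine of_bound ⟨fun _ => 0, Computable.const 0, fun p hp => ?_⟩
  have h1 := hp.1.2.1
  have h2 : p.1.length ≤ 0 := by exact_mod_cast hp.2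
  rw [cv_length] at h1
  omega

/-- **Few candidates are enough.** -/
theorem lists_bound {k : ℕ} (hk : 1 ≤ k) {d : ℕ∞} (hd : 1 ≤ d) (h : Lists Bound k (k ^ 2 * d)) :
    Decides d ∧ Computes d := by
  obtain ⟨E, h1, h2⟩ := h
  refine of_bound (bound_of_lists hk hd h1 ?_)
  rintro p ⟨hv, hp⟩
  obtain ⟨h3, n, c, h4, h5⟩ := h2 p _ ((isLRS_iff p _).mpr ⟨hv, rfl⟩) hp
  exact ⟨atMost_of_encard h3, n, c, h4, (bound_iff hv c).mp h5⟩

lemma lists_of_lists {k : ℕ} {D : ℕ∞} (h : Lists Number k D) : Lists Bound k D := by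
  obtain ⟨E, h1, h2⟩ := h
  obtain ⟨E', h3, h4⟩ := lists_of_numbers h1
  refine ⟨E', h3, fun p u hu hp => ?_⟩
  obtain ⟨hv, rfl⟩ := (isLRS_iff p u).mp hu
  obtain ⟨h5, n, c, h6, h7⟩ := h2 p _ hu hp
  obtain ⟨h8, n', c', h9, h10⟩ := h4 p k (atMost_of_encard h5) ⟨n, by
    rw [h6, ((number_iff hv c).mp h7)]⟩
  exact ⟨encard_of_atMost h8, n', c', h9, (bound_iff hv c').mpr h10⟩

lemma lists_of_changes {k : ℕ} {D : ℕ∞} (h : Changes Bound k D) : Lists Bound k D := by
  obtain ⟨G, h1, h2⟩ := h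
  refine ⟨fun z => some (G z), Computable.option_some.comp h1, fun p u hu hp => ?_⟩
  obtain ⟨h3, m, h4⟩ := h2 p u hu hp
  refine ⟨?_, m, _, rfl, h4 m le_rfl⟩
  obtain ⟨j, rfl⟩ : ∃ j, k = j + 1 := by
    rcases k with _ | j
    · simp at h3
    · exact ⟨j, rfl⟩
  refine encard_of_atMost (atMost_of_changes ?_)
  push_cast at h3
  exact Order.le_of_lt_add_one h3

lemma lists_of_random {k : ℕ} (hk : 1 ≤ k) {D : ℕ∞} (h : Random Bound k D) : Lists Bound k D := by
  obtain ⟨R, h1, h2⟩ := h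
  obtain ⟨E, h3, h4, h5⟩ := list_of_random_sharp h1 V_mono hk
  refine ⟨E, h3, fun p u hu hp => ⟨encard_of_atMost (h4 p), ?_⟩⟩
  obtain ⟨hv, rfl⟩ := (isLRS_iff p u).mp hu
  have h6 := h2 p _ hu hp
  rw [show Bound (sq (cv p)) = V p from funext fun c => propext (bound_iff hv c)] at h6 ⊢
  exact h5 p h6

lemma random_of_random {k : ℕ} {D : ℕ∞} (h : Random Number k D) : Random Bound k D := by
  obtain ⟨R, h1, h2⟩ := h
  obtain ⟨pb, h3, h4⟩ := exists_pb
  have hset : ∀ p, {x | pb (p, x) = true} = {n | Spor (cv p) n} := fun p => Set.ext fun x => h4 p x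
  obtain ⟨R', h5, h6⟩ := bound_of_count_lt h3 (fun p => by rw [hset]; exact spor_finite p)
    (u := fun z : (List ℤ × List ℤ) × ℕ => z.2) Computable.snd h1 (V := V) (fun p t ht x hx =>
      le_mx (fun z : (List ℤ × List ℤ) × ℕ => z.2) p (ht x ((h4 p x).mpr hx)))
  refine ⟨R', h5, fun p u hu hp => ?_⟩
  obtain ⟨hv, rfl⟩ := (isLRS_iff p u).mp hu
  have h7 := h2 p _ hu hp
  rw [show Bound (sq (cv p)) = V p from funext fun c => propext (bound_iff hv c)]
  refine h6 p _ ?_
  rw [hset]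
  rwa [show Number (sq (cv p)) = fun m => {n | Spor (cv p) n}.ncard = m from
    funext fun c => propext (number_iff hv c)] at h7

lemma const_lists {P : (ℕ → ℤ) → ℕ → Prop} {c : List ℤ × List ℤ → ℕ} (hc : Computable c)
    (h : ∀ p u, IsLRS p u → P u (c p)) {k : ℕ} (hk : 1 ≤ k) : Lists P k ⊤ := by
  refine ⟨fun z => some (c z.1), Computable.option_some.comp (hc.comp Computable.fst),
    fun p u hu _ => ⟨?_, 0, c p, rfl, h p u hu⟩⟩
  have h1 : {b | ∃ n : ℕ, (fun z : (List ℤ × List ℤ) × ℕ => some (c z.1)) (p, n) = some b} = {c p} := by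
    ext b
    simp [eq_comm]
  rw [h1, Set.encard_singleton]
  exact_mod_cast hk

lemma const_changes {P : (ℕ → ℤ) → ℕ → Prop} {c : List ℤ × List ℤ → ℕ} (hc : Computable c)
    (h : ∀ p u, IsLRS p u → P u (c p)) {k : ℕ} (hk : 1 ≤ k) : Changes P k ⊤ := by
  refine ⟨fun z => c z.1, hc.comp Computable.fst, fun p u hu _ => ⟨?_, 0, fun _ _ => h p u hu⟩⟩
  simp only [ne_eq, not_true_eq_false, Set.ofPred_false, Set.encard_empty]
  exact_mod_cast hk

lemma const_rand {P : (ℕ → ℤ) → ℕ → Prop} {c : List ℤ × List ℤ → ℕ} (hc : Computable c)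
    (h : ∀ p u, IsLRS p u → P u (c p)) {k : ℕ} (hk : 1 ≤ k) : Random P k ⊤ := by
  refine ⟨fun z => some (c z.1), const_random hc, fun p u hu _ => ?_⟩
  refine lt_of_lt_of_le ?_ (const_prob (h p u hu))
  rw [div_lt_one (by positivity)]
  have : (1 : ℝ) ≤ k := by exact_mod_cast hk
  linarith

/-- lists whose length grows slowly with the order -/
lemma lists_of_growth {P : (ℕ → ℤ) → ℕ → Prop} {κ : ℕ → ℕ}
    (hκ : Filter.Tendsto (fun D : ℕ => (κ D : ℝ) / √D) Filter.atTop (nhds 0)) (h : ListsBy P κ)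
    {d : ℕ} (hd : 1 ≤ d) : ∃ k : ℕ, 1 ≤ k ∧ Lists P k (k ^ 2 * d) := by
  obtain ⟨E, h1, h2⟩ := h
  have hd0 : (0 : ℝ) < √d := Real.sqrt_pos.mpr (by exact_mod_cast hd)
  have h3 := hκ.eventually (gt_mem_nhds (one_div_pos.mpr hd0))
  obtain ⟨D₀, hD₀⟩ := Filter.eventually_atTop.mp h3
  set k : ℕ := (Finset.range (D₀ + 1)).sup κ + 1 with hk
  have hκk : ∀ D, D ≤ k ^ 2 * d → κ D ≤ k := by
    intro D hD
    by_cases h4 : D < D₀ + 1
    · have : κ D ≤ (Finset.range (D₀ + 1)).sup κ :=
        Finset.le_sup (f := κ) (Finset.mem_range.mpr h4)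
      omega
    · have h5 := hD₀ D (by omega)
      have hD1 : (0 : ℝ) < √D := Real.sqrt_pos.mpr (by exact_mod_cast (by omega : 0 < D))
      rw [div_lt_div_iff₀ hD1 hd0, one_mul] at h5
      have h6 : √D ≤ k * √d := by
        rw [Real.sqrt_le_left (by positivity), mul_pow, Real.sq_sqrt (Nat.cast_nonneg d)]
        exact_mod_cast hD
      have h7 : (κ D : ℝ) * √d < k * √d := lt_of_lt_of_le h5 h6
      have h8 : (κ D : ℝ) < k := lt_of_mul_lt_mul_right h7 hd0.le
      exact_mod_cast h8.le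
  refine ⟨k, by omega, E, h1, fun p u hu hp => ?_⟩
  obtain ⟨h4, h5⟩ := h2 p u hu
  refine ⟨h4.trans ?_, h5⟩
  exact_mod_cast hκk p.1.length (by exact_mod_cast hp)

/-- a success probability which decreases slowly with the order -/
lemma random_of_decay {P : (ℕ → ℤ) → ℕ → Prop} {ε : ℕ → ℝ} (hε : ∀ D, 0 < ε D)
    (hε' : Filter.Tendsto (fun D : ℕ => ε D * √D) Filter.atTop Filter.atTop)
    (h : RandomBy P ε) {d : ℕ} (hd : 1 ≤ d) : ∃ k : ℕ, 1 ≤ k ∧ Random P k (k ^ 2 * d) := by
  obtain ⟨R, h1, h2⟩ := h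
  have hd0 : (0 : ℝ) < √d := Real.sqrt_pos.mpr (by exact_mod_cast hd)
  obtain ⟨D₀, hD₀⟩ := Filter.eventually_atTop.mp (hε'.eventually (Filter.eventually_ge_atTop √d))
  -- a lower bound for the small orders
  obtain ⟨m, hm0, hm⟩ : ∃ m : ℝ, 0 < m ∧ ∀ D < D₀ + 1, m ≤ ε D := by
    have hne : (Finset.range (D₀ + 1)).Nonempty := ⟨0, by simp⟩
    refine ⟨(Finset.range (D₀ + 1)).inf' hne ε, ?_, fun D hD =>
      Finset.inf'_le _ (Finset.mem_range.mpr hD)⟩
    rw [Finset.lt_inf'_iff]
    exact fun D _ => hε D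
  obtain ⟨k, hk⟩ := exists_nat_gt (1 / m)
  have hk0 : (0 : ℝ) < k := lt_trans (one_div_pos.mpr hm0) hk
  have hk1 : 1 ≤ k := by exact_mod_cast hk0
  have hεk : ∀ D, D ≤ k ^ 2 * d → 1 / ((k : ℝ) + 1) < ε D := by
    intro D hD
    refine lt_of_lt_of_le (one_div_lt_one_div_of_lt hk0 (lt_add_one _)) ?_
    by_cases h4 : D < D₀ + 1
    · refine le_trans ?_ (hm D h4)
      rw [one_div_le hk0 hm0]
      exact hk.le
    · have h5 := hD₀ D (by omega)
      have hD1 : (0 : ℝ) < √D := Real.sqrt_pos.mpr (by exact_mod_cast (by omega : 0 < D))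
      have h6 : √D ≤ k * √d := by
        rw [Real.sqrt_le_left (by positivity), mul_pow, Real.sq_sqrt (Nat.cast_nonneg d)]
        exact_mod_cast hD
      rw [div_le_iff₀ hk0]
      have h7 : √d ≤ ε D * (k * √d) := h5.trans (mul_le_mul_of_nonneg_left h6 (hε D).le)
      have h8 : 1 * √d ≤ (ε D * k) * √d := by
        rw [one_mul, mul_assoc]
        exact h7
      exact le_of_mul_le_mul_right h8 hd0
  exact ⟨k, hk1, R, h1, fun p u hu hp =>
    lt_of_lt_of_le (hεk p.1.length (by exact_mod_cast hp)) (h2 p u hu)⟩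

/-- **Few candidates are enough for the Skolem Problem.** -/
theorem result :
    -- orders at most `k ^ 2 * d`, at most `k` candidates or success probability above `1 / (k + 1)`
    (∀ k : ℕ, 1 ≤ k → ∀ d : ℕ∞, 1 ≤ d →
      (Lists Bound k (k ^ 2 * d) ∨ Lists Number k (k ^ 2 * d) ∨ Changes Bound k (k ^ 2 * d) ∨
        Random Bound k (k ^ 2 * d) ∨ Random Number k (k ^ 2 * d)) → Decides d ∧ Computes d) ∧
    -- all orders, the number of the candidates may grow with the order
    (∀ κ : ℕ → ℕ, Filter.Tendsto (fun D : ℕ => (κ D : ℝ) / √D) Filter.atTop (nhds 0) →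
      (ListsBy Bound κ ∨ ListsBy Number κ) → ∀ d : ℕ, Decides d ∧ Computes d) ∧
    -- all orders, the success probability may decrease with the order
    (∀ ε : ℕ → ℝ, (∀ D, 0 < ε D) →
      Filter.Tendsto (fun D : ℕ => ε D * √D) Filter.atTop Filter.atTop →
      (RandomBy Bound ε ∨ RandomBy Number ε) → ∀ d : ℕ, Decides d ∧ Computes d) ∧
    -- all orders, one algorithm
    (∀ k : ℕ, 1 ≤ k → List.TFAE [Decides ⊤, Computes ⊤, Lists Bound k ⊤, Lists Number k ⊤,
      Changes Bound k ⊤, Random Bound k ⊤, Random Number k ⊤]) := by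
  have hmain : ∀ k : ℕ, 1 ≤ k → ∀ d : ℕ∞, 1 ≤ d →
      (Lists Bound k (k ^ 2 * d) ∨ Lists Number k (k ^ 2 * d) ∨ Changes Bound k (k ^ 2 * d) ∨
        Random Bound k (k ^ 2 * d) ∨ Random Number k (k ^ 2 * d)) → Decides d ∧ Computes d := by
    rintro k hk d hd (h | h | h | h | h)
    · exact lists_bound hk hd h
    · exact lists_bound hk hd (lists_of_lists h)
    · exact lists_bound hk hd (lists_of_changes h)
    · exact lists_bound hk hd (lists_of_random hk h)
    · exact lists_bound hk hd (lists_of_random hk (random_of_random h))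
  refine ⟨hmain, fun κ hκ h d => ?_, fun ε hε hε' h d => ?_, fun k hk => ?_⟩
  · rcases Nat.eq_zero_or_pos d with rfl | hd
    · exact decides_zero
    · rcases h with h | h
      · obtain ⟨k, hk, h1⟩ := lists_of_growth hκ h hd
        exact hmain k hk d (by exact_mod_cast hd) (Or.inl h1)
      · obtain ⟨k, hk, h1⟩ := lists_of_growth hκ h hd
        exact hmain k hk d (by exact_mod_cast hd) (Or.inr (Or.inl h1))
  · rcases Nat.eq_zero_or_pos d with rfl | hd
    · exact decides_zero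
    · rcases h with h | h
      · obtain ⟨k, hk, h1⟩ := random_of_decay hε hε' h hd
        exact hmain k hk d (by exact_mod_cast hd) (Or.inr (Or.inr (Or.inr (Or.inl h1))))
      · obtain ⟨k, hk, h1⟩ := random_of_decay hε hε' h hd
        exact hmain k hk d (by exact_mod_cast hd) (Or.inr (Or.inr (Or.inr (Or.inr h1))))
  have htop : ((k : ℕ∞) ^ 2 * ⊤ : ℕ∞) = ⊤ := by
    refine ENat.mul_top ?_
    have : (k : ℕ∞) ≠ 0 := by exact_mod_cast (by omega : k ≠ 0)
    exact pow_ne_zero 2 this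
  have ht := hmain k hk ⊤ le_top
  rw [htop] at ht
  -- from a decision algorithm
  have hb : Decides ⊤ → ∃ B : List ℤ × List ℤ → ℕ, Computable B ∧ (∀ p u, IsLRS p u → Bound u (B p)) ∧
      ∃ N : List ℤ × List ℤ → ℕ, Computable N ∧ ∀ p u, IsLRS p u → Number u (N p) := by
    intro h
    obtain ⟨B, h1, h2⟩ := bound_of_dec (decides_iff.mp h)
    obtain ⟨pb, h3, h4⟩ := exists_pb
    refine ⟨B, h1, fun p u hu => ?_, fun p => cnt pb p (B p + 1),
      cnt_comp h3 (Computable.succ.comp h1), fun p u hu => ?_⟩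
    · obtain ⟨hv, rfl⟩ := (isLRS_iff p u).mp hu
      exact (bound_iff hv _).mpr (h2 p)
    · obtain ⟨hv, rfl⟩ := (isLRS_iff p u).mp hu
      rw [number_iff hv]
      change _ = cnt pb p (B p + 1)
      rw [cnt_eq, ← Set.ncard_coe_finset]
      congr 1
      ext x
      simp only [Set.mem_ofPred_eq, Finset.coe_filter, Finset.mem_range, h4]
      exact ⟨fun h => ⟨Nat.lt_succ_of_le (h2 p x h), h⟩, fun h => h.2⟩
  have hc : Computes ⊤ → Decides ⊤ := by
    rintro ⟨A, h1, h2⟩
    obtain ⟨B, h3, h4⟩ := list_bound h1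
    refine (of_bound ⟨B, h3, fun p hp n hn => ?_⟩).1
    exact (h4 p n ((h2 p _ ((isLRS_iff p _).mpr ⟨hp.1, rfl⟩) le_top n).mpr
      ((iso_iff hp.1 n).mpr hn))).le
  tfae_have 2 → 1 := hc
  tfae_have 1 → 3 := fun h => by
    obtain ⟨B, h1, h2, -⟩ := hb h
    exact const_lists h1 h2 hk
  tfae_have 1 → 4 := fun h => by
    obtain ⟨-, -, -, N, h1, h2⟩ := hb h
    exact const_lists h1 h2 hk
  tfae_have 1 → 5 := fun h => by
    obtain ⟨B, h1, h2, -⟩ := hb h
    exact const_changes h1 h2 hk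
  tfae_have 1 → 6 := fun h => by
    obtain ⟨B, h1, h2, -⟩ := hb h
    exact const_rand h1 h2 hk
  tfae_have 1 → 7 := fun h => by
    obtain ⟨-, -, -, N, h1, h2⟩ := hb h
    exact const_rand h1 h2 hk
  tfae_have 3 → 2 := fun h => (ht (Or.inl h)).2
  tfae_have 4 → 2 := fun h => (ht (Or.inr (Or.inl h))).2
  tfae_have 5 → 2 := fun h => (ht (Or.inr (Or.inr (Or.inl h)))).2
  tfae_have 6 → 2 := fun h => (ht (Or.inr (Or.inr (Or.inr (Or.inl h))))).2
  tfae_have 7 → 2 := fun h => (ht (Or.inr (Or.inr (Or.inr (Or.inr h))))).2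
  tfae_finish

end Pool.Agent.Results.MP_8d13b5_lc.FewCandidates
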