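import Pool.Graph.R_seed8.TH717.SK.Dec
import Pool.Graph.R_seed8.TH997.SP.Cons
import Pool.Agent.Helper60.SP.MainP

set_option autoImplicit false

/-!
# The Skolem Problem with a fixed dominant part

Let `g` be a fixed monic integer polynomial, `g(0) ≠ 0`, such that no quotient of two different
roots is a root of unity, and let `m ≥ 1`. We consider all integer linear recurrence sequences `u`
whose characteristic polynomial is `g_a h`, where `g_a` is `g` with its roots multiplied by an
arbitrary integer `a ≠ 0`, and `h` is an arbitrary monic integer polynomial, of arbitrary degree,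
coprime to `g_a`, all of whose roots `w` are smaller than some characteristic root `z` of `u` which
is a root of `g_a`, at the archimedean place (`(m + 1) |w| ≤ m |z|`) or at some prime `p`
(`p |w|^m ≤ |z|^m`, that is `v_p(w) ≥ v_p(z) + 1/m`); the prime `p` is not fixed. No bound for the
order, for the number of roots of the same size as `z`, for the coefficients of `h` or for `a` is
needed.

There is a constant `B`, depending on `g` and `m` only, such that all zeros `n` of these sequences
satisfy `n ≤ 2^(B s^2)`, and even `n ≤ B s^2` if `g` is squarefree, where `s` is the number of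
binary digits of the input. So one explicit algorithm (try all `n ≤ 2^(s^3)`) lists all zeros, for
all but finitely many inputs of each of these families.

Proof idea. With the companion matrix of `g_a`, one finds integer sequences `Z`, `X`, annihilated
by `g_a` and by `h`, and an integer `R ≠ 0` with `R u = Z + X`; the logarithms of the initial terms
are `O(s^2)`. By induction on the number of roots of `h` the sequence `X` is small at the given
place. By the subspace theorem (library `R405`, along an ultrafilter, so that the coefficients may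
vary) the terms of `Z` with index `n > B s^2` satisfy `|Z_n| ≥ |z|^n exp(-ε n)` at this place, if it
is one of finitely many places depending on `g` and `m`; linear forms which vanish are excluded by
the theorem on class sums (library `Y556`). If `p` is large in terms of `g` and `m` then the
trivial bound for `|Z_n|_p` suffices.
-/

namespace Pool.Agent.Results.MP_8d13b5_lc.FixedDominantPart

open Polynomial
open Pool.Agent.H692R2.USS hiding IsLRS
open Pool.Agent.TH997.US Pool.Agent.TH997.SP Pool.Agent.TH717.SK Pool.Agent.H884R2.Sko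
open Pool.Agent.Helper446.RE (cp_eq cp_le cp_lt cp_comp cite)
open Pool.Agent.Helper60.SP (Sit BC thmA thmP root_iff one_le_abs)
open scoped Classical

/-- `u` is the integer linear recurrence sequence given by the data `p = (c, b)`: the list `c` of
coefficients `c_1, ..., c_d`, where `d ≥ 1` and `c_d ≠ 0`, and the list `b` of the `d` initial
values. -/
def IsLRS (p : List ℤ × List ℤ) (u : ℕ → ℤ) : Prop :=
  p.1.length = p.2.length ∧ 1 ≤ p.1.length ∧ p.1.getD (p.1.length - 1) 0 ≠ 0 ∧
    (∀ i, i < p.1.length → u i = p.2.getD i 0) ∧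
    ∀ n : ℕ, u (n + p.1.length) =
      ∑ j ∈ Finset.range p.1.length, p.1.getD j 0 * u (n + p.1.length - 1 - j)

/-- the characteristic polynomial `X^d - c_1 X^(d-1) - ... - c_d` -/
noncomputable def chp (c : List ℤ) : ℤ[X] :=
  X ^ c.length - ∑ j ∈ Finset.range c.length, C (c.getD j 0) * X ^ (c.length - 1 - j)

/-- the size of the input: the number of binary digits of all entries, plus their number -/
def size (p : List ℤ × List ℤ) : ℕ := ((p.1 ++ p.2).map fun x => x.natAbs.size + 1).sum

/-- `z` is a characteristic root of `u`: every polynomial over `L` which annihilates `u` vanishes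
at `z` -/
def IsCharRoot (L : Type) [Field L] (u : ℕ → ℤ) (z : L) : Prop :=
  ∀ q : L[X], (∀ n, ∑ i ∈ Finset.range (q.natDegree + 1), q.coeff i * (u (n + i) : L) = 0) →
    q.eval z = 0

/-- no quotient of two different complex roots of `g` is a root of unity -/
def NonDeg (g : ℤ[X]) : Prop :=
  ∀ z z' : ℂ, (g.map (Int.castRingHom ℂ)).IsRoot z → (g.map (Int.castRingHom ℂ)).IsRoot z' →
    z ≠ z' → ∀ k : ℕ, 1 ≤ k → z ^ k ≠ z' ^ k

/-- the characteristic polynomial of `u` is `g_a h`, where `g_a` is `g` with its roots multiplied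
by `a`, and at some place all roots of `h` are smaller than some root of `g_a` which is a
characteristic root of `u` -/
def InFamily (g : ℤ[X]) (m : ℕ) (c : List ℤ) (u : ℕ → ℤ) : Prop :=
  ∃ (a : ℤ) (h : ℤ[X]), a ≠ 0 ∧ h.Monic ∧ chp c = g.scaleRoots a * h ∧
    IsCoprime ((g.scaleRoots a).map (Int.castRingHom ℚ)) (h.map (Int.castRingHom ℚ)) ∧
    ((∃ z : ℂ, ((g.scaleRoots a).map (Int.castRingHom ℂ)).IsRoot z ∧ IsCharRoot ℂ u z ∧
        ∀ w : ℂ, (h.map (Int.castRingHom ℂ)).IsRoot w → ((m : ℝ) + 1) * ‖w‖ ≤ m * ‖z‖) ∨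
      ∃ (p : ℕ) (_ : Fact p.Prime) (z : ℂ_[p]),
        ((g.scaleRoots a).map (Int.castRingHom ℂ_[p])).IsRoot z ∧ IsCharRoot ℂ_[p] u z ∧
        ∀ w : ℂ_[p], (h.map (Int.castRingHom ℂ_[p])).IsRoot w →
          (p : ℝ) * ‖w‖ ^ m ≤ ‖z‖ ^ m)

theorem isLRS_iff (p : List ℤ × List ℤ) (u : ℕ → ℤ) :
    IsLRS p u ↔ Val (cv p) ∧ u = sq (cv p) := by
  constructor
  · rintro ⟨h1, h2, h3, h4, h5⟩
    have hv : Val (cv p) := (val_cv p).2 ⟨h1, h2, h3⟩
    exact ⟨hv, funext ((rec_iff hv u).1 ⟨h4, h5⟩)⟩
  · rintro ⟨hv, rfl⟩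
    obtain ⟨h1, h2, h3⟩ := (val_cv p).1 hv
    obtain ⟨h4, h5⟩ := (rec_iff hv (sq (cv p))).2 fun _ => rfl
    exact ⟨h1, h2, h3, h4, h5⟩

theorem chp_eq (c : List ℤ) : chp c = charPoly (fun i : Fin c.length => c.getD i 0) := by
  unfold chp charPoly
  rw [Finset.sum_range]

theorem isSeq_of {p : List ℤ × List ℤ} {u : ℕ → ℤ} (hu : IsLRS p u) :
    IsSeq (fun i : Fin p.1.length => p.1.getD i 0) (fun i : Fin p.1.length => p.2.getD i 0) u := by
  refine ⟨fun i => hu.2.2.2.1 i i.2, fun n => ?_⟩
  have := hu.2.2.2.2 n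
  rw [this, Finset.sum_range]

theorem charRoot {L : Type} [Field L] {u : ℕ → ℤ} {z : L} (h : IsCharRoot L u z) :
    ∀ q : L[X], Ann q (fun n => (u n : L)) → q.eval z = 0 := by
  intro q hq
  exact h q ((ann_iff (Nat.lt_succ_self _)).1 hq)

theorem entry_le (p : List ℤ × List ℤ) (x : ℤ) (hx : x ∈ p.1 ++ p.2) :
    |(x : ℝ)| ≤ Real.exp (size p) := by
  have h1 : x.natAbs.size + 1 ≤ size p := by
    unfold size
    exact List.single_le_sum (fun _ _ => Nat.zero_le _) _ (List.mem_map_of_mem hx)
  have h2 : x.natAbs < 2 ^ (size p) :=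
    (Nat.lt_size_self _).trans_le (Nat.pow_le_pow_right (by norm_num) (by omega))
  have h3 : |(x : ℝ)| ≤ (2 : ℝ) ^ (size p) := by
    have e1 : |(x : ℝ)| = ((x.natAbs : ℕ) : ℝ) := by
      rw [Nat.cast_natAbs, Int.cast_abs]
    rw [e1]
    exact_mod_cast h2.le
  refine h3.trans ?_
  have e2 : (2 : ℝ) ≤ Real.exp 1 := by
    have := Real.add_one_le_exp (1 : ℝ)
    linarith
  calc (2 : ℝ) ^ (size p) ≤ (Real.exp 1) ^ (size p) := pow_le_pow_left₀ (by norm_num) e2 _
    _ = Real.exp (size p) := by rw [← Real.exp_nat_mul, mul_one]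

theorem length_le (p : List ℤ × List ℤ) : p.1.length + p.2.length ≤ size p := by
  unfold size
  rw [← List.length_append]
  generalize p.1 ++ p.2 = l
  induction l with
  | nil => simp
  | cons x l ih =>
    rw [List.map_cons, List.sum_cons, List.length_cons]
    omega

theorem getD_mem {l : List ℤ} {i : ℕ} (hi : i < l.length) : l.getD i 0 ∈ l := by
  rw [List.getD_eq_getElem?_getD, List.getElem?_eq_getElem hi]
  exact List.getElem_mem hi

theorem chp_coeff (c : List ℤ) (i : ℕ) (hi : i ≠ c.length) :
    (chp c).coeff i = 0 ∨ ∃ j < c.length, (chp c).coeff i = -(c.getD j 0) := by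
  unfold chp
  rw [coeff_sub, coeff_X_pow, if_neg hi, zero_sub, finsetSum_coeff]
  by_cases h : i < c.length
  · right
    refine ⟨c.length - 1 - i, by omega, ?_⟩
    rw [Finset.sum_eq_single (c.length - 1 - i)]
    · rw [coeff_C_mul, coeff_X_pow, if_pos (by omega), mul_one]
    · intro j hj hne
      rw [Finset.mem_range] at hj
      rw [coeff_C_mul, coeff_X_pow, if_neg (by omega), mul_zero]
    · intro h2
      exact absurd (Finset.mem_range.2 (by omega)) h2
  · left
    rw [Finset.sum_eq_zero, neg_zero]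
    intro j hj
    rw [Finset.mem_range] at hj
    rw [coeff_C_mul, coeff_X_pow, if_neg (by omega), mul_zero]

theorem chp_coeff_le (p : List ℤ × List ℤ) (i : ℕ) :
    |((chp p.1).coeff i : ℝ)| ≤ Real.exp (size p) := by
  by_cases hi : i = p.1.length
  · subst hi
    have h1 : (chp p.1).coeff p.1.length = 1 := by
      unfold chp
      rw [coeff_sub, coeff_X_pow, if_pos rfl, finsetSum_coeff, Finset.sum_eq_zero, sub_zero]
      intro j hj
      rw [Finset.mem_range] at hj
      rw [coeff_C_mul, coeff_X_pow, if_neg (by omega), mul_zero]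
    rw [h1, Int.cast_one, abs_one]
    rw [← Real.exp_zero]
    exact Real.exp_le_exp.2 (Nat.cast_nonneg _)
  · rcases chp_coeff p.1 i hi with h | ⟨j, hj, h⟩
    · rw [h, Int.cast_zero, abs_zero]
      exact (Real.exp_pos _).le
    · rw [h, Int.cast_neg, abs_neg]
      exact entry_le p _ (List.mem_append_left _ (getD_mem hj))

theorem chp_zero (c : List ℤ) (hc : 1 ≤ c.length) (h0 : c.getD (c.length - 1) 0 ≠ 0) :
    (chp c).coeff 0 ≠ 0 := by
  have h1 : (chp c).coeff 0 = -(c.getD (c.length - 1) 0) := by
    unfold chp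
    rw [coeff_sub, coeff_X_pow, if_neg (by omega), zero_sub, finsetSum_coeff,
      Finset.sum_eq_single (c.length - 1)]
    · rw [coeff_C_mul, coeff_X_pow, if_pos (by omega), mul_one]
    · intro j hj hne
      rw [Finset.mem_range] at hj
      rw [coeff_C_mul, coeff_X_pow, if_neg (by omega), mul_zero]
    · intro h2
      exact absurd (Finset.mem_range.2 (by omega)) h2
  rw [h1]
  exact neg_ne_zero.2 h0

/-- the bound for the zeros -/
theorem bound (g : ℤ[X]) (m : ℕ) (hg : g.Monic) (hg0 : g.coeff 0 ≠ 0) (hnd : NonDeg g)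
    (hm : 1 ≤ m) : ∃ B : ℕ, ∀ p u, IsLRS p u → InFamily g m p.1 u → ∀ n, u n = 0 →
      n ≤ 2 ^ (B * size p ^ 2) ∧
        (Squarefree (g.map (Int.castRingHom ℚ)) → n ≤ B * size p ^ 2) := by
  have hnd' : ∀ z z' : ℂ, aeval z g = 0 → aeval z' g = 0 → z ≠ z' → ∀ k : ℕ, 1 ≤ k →
      z ^ k ≠ z' ^ k := fun z z' hz hz' =>
    hnd z z' ((root_iff g z).2 hz) ((root_iff g z').2 hz')
  obtain ⟨B1, hB1, hA⟩ := thmA g hg hg0 hnd' m hm
  obtain ⟨B2, hB2, hP⟩ := thmP g hg hg0 hnd' m hm
  obtain ⟨N, hN⟩ := exists_nat_ge (B1 + B2)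
  refine ⟨2 * N, fun p u hu hf n hn => ?_⟩
  obtain ⟨a, h, ha, hh, hchp, hcop, hdom⟩ := hf
  obtain ⟨S, hS⟩ : ∃ S : ℝ, S = size p := ⟨_, rfl⟩
  have hlen := length_le p
  have hlen1 := hu.2.1
  have hS1 : 1 ≤ S := by
    rw [hS]
    exact_mod_cast (by omega : 1 ≤ size p)
  have hmonA : (g.scaleRoots a).Monic := (monic_scaleRoots_iff a).2 hg
  have hdeg : (g.scaleRoots a).natDegree + h.natDegree = p.1.length := by
    rw [← hmonA.natDegree_mul hh, ← hchp, chp_eq, charPoly_natDegree]
  -- the situation
  have hsit : Sit (g.scaleRoots a) h u S := by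
    refine ⟨hh, hcop, ?_, hS1, ?_, ?_, ?_⟩
    · rw [← hchp, chp_eq]
      exact ann_of_isSeq (isSeq_of hu)
    · rw [hS]
      exact_mod_cast (by omega : h.natDegree ≤ size p)
    · intro i
      rw [← hchp, hS]
      exact chp_coeff_le p i
    · intro i hi
      rw [hdeg] at hi
      rw [hu.2.2.2.1 i hi, hS]
      refine entry_le p _ (List.mem_append_right _ (getD_mem ?_))
      rw [← hu.1]
      exact hi
  -- the scaling factor
  have haS : 1 ≤ (g.scaleRoots a).natDegree → |(a : ℝ)| ≤ Real.exp S := by
    intro hd1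
    have h1 := chp_zero p.1 hu.2.1 hu.2.2.1
    have h2 : (chp p.1).coeff 0 = g.coeff 0 * a ^ g.natDegree * h.coeff 0 := by
      rw [hchp, mul_coeff_zero, coeff_scaleRoots, Nat.sub_zero]
    have h3 : a ∣ (chp p.1).coeff 0 := by
      rw [h2]
      refine dvd_mul_of_dvd_left (dvd_mul_of_dvd_right (dvd_pow_self a ?_) _) _
      rw [natDegree_scaleRoots] at hd1
      omega
    have h4 : |a| ≤ |(chp p.1).coeff 0| := Int.le_of_dvd (abs_pos.2 h1) ((abs_dvd_abs _ _).2 h3)
    have h5 : |(a : ℝ)| ≤ |((chp p.1).coeff 0 : ℝ)| := by exact_mod_cast h4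
    rw [hS]
    exact h5.trans (chp_coeff_le p 0)
  have hroot : ∀ (L : Type) [Field L] (z : L),
      ((g.scaleRoots a).map (Int.castRingHom L)).IsRoot z → 1 ≤ (g.scaleRoots a).natDegree := by
    intro L _ z hz
    by_contra hcon
    have h1 : (g.scaleRoots a).natDegree = 0 := by omega
    have h2 : g.scaleRoots a = 1 := hmonA.natDegree_eq_zero.1 h1
    rw [h2, Polynomial.map_one, IsRoot.def, eval_one] at hz
    exact one_ne_zero hz
  have hnot : ¬ BC g (B1 + B2) (S ^ 2) n := by
    intro hbc
    rcases hdom with ⟨z, hz1, hz2, hz3⟩ | ⟨q, hq, z, hz1, hz2, hz3⟩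
    · exact hA a h u S ha (haS (hroot ℂ z hz1)) hsit z (charRoot hz2) hz1 hz3 n
        (hbc.mono (by linarith) (sq_nonneg S)) hn
    · exact hP a h u S ha (haS (hroot ℂ_[q] z hz1)) hsit q hq z (charRoot hz2) hz1 hz3 n
        (hbc.mono (by linarith) (sq_nonneg S)) hn
  unfold BC at hnot
  rw [not_or, not_lt] at hnot
  have hSS : S ^ 2 = ((size p ^ 2 : ℕ) : ℝ) := by
    rw [hS]
    push_cast
    rfl
  have hle : (B1 + B2) * S ^ 2 ≤ ((N * size p ^ 2 : ℕ) : ℝ) := by
    rw [hSS]
    push_cast
    exact mul_le_mul_of_nonneg_right hN (by positivity)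
  constructor
  · rcases Nat.eq_zero_or_pos n with rfl | hn0
    · exact Nat.zero_le _
    · have hn0' : (0 : ℝ) < n := by exact_mod_cast hn0
      have h1 : Real.log n ≤ ((N * size p ^ 2 : ℕ) : ℝ) := hnot.1.trans hle
      have h2 : (n : ℝ) ≤ Real.exp ((N * size p ^ 2 : ℕ) : ℝ) :=
        (Real.log_le_iff_le_exp hn0').1 h1
      have h3 : Real.exp ((N * size p ^ 2 : ℕ) : ℝ) ≤ ((2 ^ (2 * N * size p ^ 2) : ℕ) : ℝ) := by
        have e1 : Real.exp 1 ≤ 4 := by
          have := Real.exp_one_lt_d9
          linarith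
        have e2 : Real.exp ((N * size p ^ 2 : ℕ) : ℝ) = (Real.exp 1) ^ (N * size p ^ 2) := by
          rw [← Real.exp_nat_mul, mul_one]
        have e3 : ((2 ^ (2 * N * size p ^ 2) : ℕ) : ℝ) = (4 : ℝ) ^ (N * size p ^ 2) := by
          push_cast
          rw [mul_assoc, pow_mul]
          norm_num
        rw [e2, e3]
        exact pow_le_pow_left₀ (Real.exp_pos _).le e1 _
      exact_mod_cast h2.trans h3
  · intro hsq
    have h1 : (n : ℝ) ≤ (B1 + B2) * S ^ 2 := by
      by_contra hcon
      exact hnot.2 ⟨hsq, not_le.1 hcon⟩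
    have h2 : n ≤ N * size p ^ 2 := by exact_mod_cast h1.trans hle
    refine h2.trans ?_
    rw [mul_assoc]
    omega

theorem computable_natSize : Computable Nat.size := by
  have h1 : ∀ n, Nat.size n = Nat.log 2 (2 * n) := by
    intro n
    apply le_antisymm
    · rw [Nat.size_le]
      rcases Nat.eq_zero_or_pos n with rfl | hn
      · exact Nat.pow_pos (by norm_num)
      · have h2 : 2 * n < 2 ^ (Nat.log 2 (2 * n) + 1) :=
          Nat.lt_pow_succ_log_self (by norm_num) _
        rw [pow_succ] at h2
        omega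
    · rcases Nat.eq_zero_or_pos n with rfl | hn
      · simp
      · have h2 : 2 ^ Nat.log 2 (2 * n) ≤ 2 * n := Nat.pow_log_le_self 2 (by omega)
        have h3 : 2 * n < 2 * 2 ^ Nat.size n :=
          Nat.mul_lt_mul_of_pos_left (Nat.lt_size_self n) (by norm_num)
        have h4 : Nat.log 2 (2 * n) < Nat.size n + 1 :=
          (Nat.pow_lt_pow_iff_right (by norm_num : 1 < 2)).1
            (h2.trans_lt (h3.trans_eq (pow_succ' 2 (Nat.size n)).symm))
        omega
  have h2 : Computable fun n : ℕ => Nat.log 2 (2 * n) := by fun_prop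
  exact h2.of_eq fun n => (h1 n).symm

theorem computable_size : Computable size := by
  have h2 : Computable Int.natAbs := by
    have : Primrec Int.natAbs := by
      refine (Primrec.nat_add.comp (Primrec.fst.comp primrec_zc)
        (Primrec.snd.comp primrec_zc)).of_eq fun z => ?_
      unfold zc
      simp only
      omega
    exact this.to_comp
  have h3 : Computable fun x : ℤ => x.natAbs.size + 1 :=
    Computable.succ.comp (computable_natSize.comp h2)
  have h4 : Computable fun x : (List ℤ × List ℤ) × ℕ =>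
      ((x.1.1 ++ x.1.2).getD x.2 0).natAbs.size + 1 := by
    refine h3.comp ?_
    refine cgetD ?_ ?_ ?_
    · exact Computable.list_append.comp (Computable.fst.comp Computable.fst)
        (Computable.snd.comp Computable.fst)
    · exact Computable.snd
    · exact Computable.const 0
  have h5 : Computable fun p : List ℤ × List ℤ => ∑ i ∈ Finset.range (p.1 ++ p.2).length,
      (((p.1 ++ p.2).getD i 0).natAbs.size + 1) := by
    refine csum (g := fun (p : List ℤ × List ℤ) i => ((p.1 ++ p.2).getD i 0).natAbs.size + 1)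
      (f := fun p => (p.1 ++ p.2).length) h4 ?_
    exact Computable.list_length.comp
      (Computable.list_append.comp Computable.fst Computable.snd)
  refine h5.of_eq fun p => ?_
  unfold size
  generalize p.1 ++ p.2 = l
  induction l with
  | nil => rfl
  | cons x l ih =>
    rw [List.length_cons, Finset.sum_range_succ', List.map_cons, List.sum_cons, ← ih, add_comm]
    rfl

theorem finite_lists (B M : ℕ) :
    {l : List ℤ | l.length ≤ B ∧ ∀ x ∈ l, x.natAbs ≤ M}.Finite := by
  have h1 : Finite {x : ℤ // x.natAbs ≤ M} := by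
    refine Set.Finite.to_subtype ((Set.finite_Icc (-(M : ℤ)) M).subset fun x hx => ?_)
    have hx' : x.natAbs ≤ M := hx
    constructor <;> omega
  have h2 := List.finite_length_le {x : ℤ // x.natAbs ≤ M} B
  refine (h2.image (List.map Subtype.val)).subset ?_
  rintro l ⟨hl1, hl2⟩
  refine ⟨l.attachWith (fun x => x.natAbs ≤ M) hl2, ?_, ?_⟩
  · show (l.attachWith (fun x => x.natAbs ≤ M) hl2).length ≤ B
    rw [List.length_attachWith]
    exact hl1
  · exact List.attachWith_map_subtype_val _

theorem finite_size (B : ℕ) : {p : List ℤ × List ℤ | size p ≤ B}.Finite := by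
  refine ((finite_lists B (2 ^ B)).prod (finite_lists B (2 ^ B))).subset ?_
  intro p hp
  have hp' : size p ≤ B := hp
  have h1 := length_le p
  have h2 : ∀ x ∈ p.1 ++ p.2, x.natAbs ≤ 2 ^ B := by
    intro x hx
    have h3 : x.natAbs.size + 1 ≤ size p := by
      unfold size
      exact List.single_le_sum (fun _ _ => Nat.zero_le _) _ (List.mem_map_of_mem hx)
    exact ((Nat.lt_size_self _).trans_le (Nat.pow_le_pow_right (by norm_num) (by omega))).le
  exact ⟨⟨by omega, fun x hx => h2 x (List.mem_append_left _ hx)⟩,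
    ⟨by omega, fun x hx => h2 x (List.mem_append_right _ hx)⟩⟩

/-- the list of the numbers with a decidable property below a computable bound -/
theorem exists_list (P : List ℤ × List ℤ → ℕ → Prop)
    (hcP : ComputablePred (fun x : (List ℤ × List ℤ) × ℕ => P x.1 x.2))
    (b : List ℤ × List ℤ → ℕ) (hb : Computable b) :
    ∃ A : List ℤ × List ℤ → List ℕ, Computable A ∧ ∀ p n, n ∈ A p ↔ n < b p ∧ P p n := by
  refine ⟨fun p => Nat.rec [] (fun n L => if P p n then n :: L else L) (b p), ?_, ?_⟩
  · refine Computable.nat_rec (f := fun p : List ℤ × List ℤ => b p)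
      (g := fun _ => ([] : List ℕ))
      (h := fun (p : List ℤ × List ℤ) (y : ℕ × List ℕ) =>
        if P p y.1 then y.1 :: y.2 else y.2) hb (Computable.const _) ?_
    refine cite (p := fun x : (List ℤ × List ℤ) × (ℕ × List ℕ) => P x.1 x.2.1) ?_ ?_ ?_
    · exact cp_comp hcP
        (f := fun x : (List ℤ × List ℤ) × (ℕ × List ℕ) => (x.1, x.2.1)) (by fun_prop)
    · exact Computable.list_cons.comp (Computable.fst.comp Computable.snd)
        (Computable.snd.comp Computable.snd)
    · exact Computable.snd.comp Computable.snd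
  · intro p n
    have key : ∀ M : ℕ, n ∈ (Nat.rec [] (fun n L => if P p n then n :: L else L) M :
        List ℕ) ↔ n < M ∧ P p n := by
      intro M
      induction M with
      | zero => simp
      | succ M ih =>
        show n ∈ (if P p M then
          M :: (Nat.rec [] (fun n L => if P p n then n :: L else L) M : List ℕ)
          else (Nat.rec [] (fun n L => if P p n then n :: L else L) M : List ℕ)) ↔ _
        split_ifs with h
        · rw [List.mem_cons, ih]
          constructor
          · rintro (rfl | ⟨h1, h2⟩)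
            · exact ⟨Nat.lt_succ_self _, h⟩
            · exact ⟨by omega, h2⟩
          · rintro ⟨h1, h2⟩
            rcases Nat.lt_succ_iff_lt_or_eq.1 h1 with h3 | h3
            · exact Or.inr ⟨h3, h2⟩
            · exact Or.inl h3
        · rw [ih]
          constructor
          · rintro ⟨h1, h2⟩
            exact ⟨by omega, h2⟩
          · rintro ⟨h1, h2⟩
            rcases Nat.lt_succ_iff_lt_or_eq.1 h1 with h3 | h3
            · exact ⟨h3, h2⟩
            · rw [h3] at h2
              exact absurd h2 h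
    exact key (b p)

/-- the list of the zeros below a computable bound -/
theorem exists_list' (b : List ℤ × List ℤ → ℕ) (hb : Computable b) :
    ∃ A : List ℤ × List ℤ → List ℕ, Computable A ∧
    ∀ p n, n ∈ A p ↔ n < b p ∧ (Val (cv p) ∧ (vv (cv p) n).1 = (vv (cv p) n).2) := by
  have hcv : Computable (fun x : (List ℤ × List ℤ) × ℕ => cv x.1) :=
    computable_cv.comp Computable.fst
  have hvv : Computable (fun x : (List ℤ × List ℤ) × ℕ => vv (cv x.1) x.2) :=
    cvv hcv Computable.snd
  exact exists_list (fun p n => Val (cv p) ∧ (vv (cv p) n).1 = (vv (cv p) n).2)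
    (cp_and (cp_comp cp_val hcv)
      (cp_eq (Computable.fst.comp hvv) (Computable.snd.comp hvv))) b hb

theorem zero_iff {p : List ℤ × List ℤ} {u : ℕ → ℤ} (hu : IsLRS p u) (n : ℕ) :
    (Val (cv p) ∧ (vv (cv p) n).1 = (vv (cv p) n).2) ↔ u n = 0 := by
  obtain ⟨hv, rfl⟩ := (isLRS_iff p u).1 hu
  rw [sq_eq, iv_eq_zero]
  exact and_iff_right hv

theorem result :
    -- one algorithm, which reads any linear recurrence sequence and lists zeros of the sequence
    ∃ A : List ℤ × List ℤ → List ℕ, Computable A ∧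
      (∀ p u, IsLRS p u → ∀ n ∈ A p, u n = 0) ∧
      -- for all dominant parts `g` and all `m`
      ∀ (g : ℤ[X]) (m : ℕ), g.Monic → g.coeff 0 ≠ 0 → NonDeg g → 1 ≤ m →
        -- the list is complete for all but finitely many inputs of the family
        {p | ∃ u, IsLRS p u ∧ InFamily g m p.1 u ∧ ∃ n, u n = 0 ∧ n ∉ A p}.Finite ∧
        -- because the zeros are bounded in terms of the size of the input
        (∃ B : ℕ, ∀ p u, IsLRS p u → InFamily g m p.1 u → ∀ n, u n = 0 →
          n ≤ 2 ^ (B * size p ^ 2) ∧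
            (Squarefree (g.map (Int.castRingHom ℚ)) → n ≤ B * size p ^ 2)) ∧
        -- and so the Skolem Problem is decidable for the sequences of the family
        ∃ D : List ℤ × List ℤ → Prop, ComputablePred D ∧ ∀ p u, IsLRS p u →
          InFamily g m p.1 u → (D p ↔ ∃ n, u n = 0) := by
  have hsz := computable_size
  obtain ⟨A, hA, h⟩ := exists_list' (fun p => 2 ^ (size p ^ 3) + 1) (by fun_prop)
  refine ⟨A, hA, fun p u hu n hn => (zero_iff hu n).1 ((h p n).1 hn).2, ?_⟩
  intro g m hg hg0 hnd hm
  obtain ⟨B, hB⟩ := bound g m hg hg0 hnd hm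
  refine ⟨?_, ⟨B, hB⟩, ?_⟩
  · refine (finite_size B).subset ?_
    rintro p ⟨u, hu, hf, n, hn, hnA⟩
    show size p ≤ B
    by_contra hcon
    rw [not_le] at hcon
    apply hnA
    rw [h, zero_iff hu]
    refine ⟨Nat.lt_succ_of_le ((hB p u hu hf n hn).1.trans ?_), hn⟩
    refine Nat.pow_le_pow_right (by norm_num) ?_
    rw [pow_succ' (size p) 2]
    exact Nat.mul_le_mul_right _ hcon.le
  · obtain ⟨A', hA', h'⟩ := exists_list' (fun p => 2 ^ (B * size p ^ 2) + 1) (by fun_prop)
    refine ⟨fun p => 1 ≤ (A' p).length, ?_, ?_⟩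
    · exact cp_le (Computable.const 1) (Computable.list_length.comp hA')
    · intro p u hu hf
      constructor
      · intro h1
        obtain ⟨n, hn⟩ := List.exists_mem_of_length_pos h1
        exact ⟨n, (zero_iff hu n).1 ((h' p n).1 hn).2⟩
      · rintro ⟨n, hn⟩
        refine List.length_pos_of_mem ((h' p n).2 ⟨?_, (zero_iff hu n).2 hn⟩)
        exact Nat.lt_succ_of_le (hB p u hu hf n hn).1

end Pool.Agent.Results.MP_8d13b5_lc.FixedDominantPart
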