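import Pool.Agent.Results.MP_8d13b5_lc.FixedDominantPart
import Pool.Agent.Helper60.SP.TwE

set_option autoImplicit false

/-!
# The Skolem Problem for two twisted factors

For a polynomial `f` and an integer `a ≠ 0` let `f_a` be the polynomial `f` with its roots
multiplied by `a`. Let `g` and `h` be any two fixed monic integer polynomials. We consider all
integer linear recurrence sequences `u` with characteristic polynomial `g_a h_b`, where `a` and `b`
are arbitrary integers, and arbitrary initial values. For example `g` may be a polynomial of degree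
four whose roots have the same absolute value, and `h = X - 1`; these are the sequences of order
five with the characteristic polynomials `g_a (X - b)`.

There is a constant `B`, depending on `g` and `h` only, such that all isolated zeros `n` of all
these sequences satisfy `n ≤ 2^(B s^2)`, and even `n ≤ B s^2` if the characteristic polynomial is
squarefree, where `s` is the number of binary digits of the input. So one explicit algorithm (try
all `n ≤ 2^(s^3)`) lists all isolated zeros, for all but finitely many inputs of each of these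
families, and the Skolem Problem is decidable for each family.

Proof idea. Passing to subsequences `u (L n + r)` we may assume that no quotient of two different
roots of `g` is a root of unity. Let `b / a = N / D` in lowest terms. If `N` does not divide `g(0)`
then all roots of `g_a` dominate all roots of `h_b` at some prime `p`, and if `|D|` is large in
comparison with `|N|` then they dominate at the archimedean place; now one uses the theorems of
`FixedDominantPart`, or `u` belongs to `h_b`. The remaining fractions are finite in number, and each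
of them belongs to one fixed recurrence, up to multiplying the roots by an integer; here one uses
the library result on fixed recurrences.
-/

namespace Pool.Agent.Results.MP_8d13b5_lc.TwistedFactors

open Polynomial
open Pool.Agent.H692R2.USS hiding IsLRS
open Pool.Agent.TH997.US Pool.Agent.TH997.SP Pool.Agent.TH717.SK Pool.Agent.H884R2.Sko
open Pool.Agent.Helper446.RE (cp_eq cp_le cp_lt cp_comp cite)
open Pool.Agent.Helper60.SP (Iso twistAll)
open Pool.Agent.Results.MP_8d13b5_lc.FixedDominantPart
open scoped Classical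

/-- `n` is an isolated zero of `u`: it lies in no infinite arithmetic progression of zeros. -/
def Isolated (u : ℕ → ℤ) (n : ℕ) : Prop := u n = 0 ∧ ∀ b, 0 < b → ∃ l, u (n + b * l) ≠ 0

/-- the characteristic polynomial is `g_a h_b`, for some integers `a`, `b` -/
def Twisted (g h : ℤ[X]) (c : List ℤ) : Prop :=
  ∃ a b : ℤ, chp c = g.scaleRoots a * h.scaleRoots b

theorem spor_iff' {p : List ℤ × List ℤ} {u : ℕ → ℤ} (hu : IsLRS p u) (n : ℕ) :
    Spor (cv p) n ↔ Isolated u n := by
  obtain ⟨hv, rfl⟩ := (isLRS_iff p u).1 hu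
  exact spor_iff hv n

/-- the bound for the isolated zeros -/
theorem bound' (g h : ℤ[X]) (hg : g.Monic) (hgd : 1 ≤ g.natDegree)
    (hh : h.Monic) (hhd : 1 ≤ h.natDegree) : ∃ B : ℕ, ∀ p u, IsLRS p u → Twisted g h p.1 →
      ∀ n, Isolated u n → n ≤ 2 ^ (B * size p ^ 2) ∧
        (Squarefree ((chp p.1).map (Int.castRingHom ℚ)) → n ≤ B * size p ^ 2) := by
  by_cases hg0 : g.coeff 0 = 0
  · refine ⟨0, fun p u hu ht => ?_⟩
    obtain ⟨a, b, hab⟩ := ht
    exfalso
    apply chp_zero p.1 hu.2.1 hu.2.2.1
    rw [hab, mul_coeff_zero, coeff_scaleRoots, hg0, zero_mul, zero_mul]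
  by_cases hh0 : h.coeff 0 = 0
  · refine ⟨0, fun p u hu ht => ?_⟩
    obtain ⟨a, b, hab⟩ := ht
    exfalso
    apply chp_zero p.1 hu.2.1 hu.2.2.1
    rw [hab, mul_coeff_zero, coeff_scaleRoots, coeff_scaleRoots, hh0, zero_mul, mul_zero]
  obtain ⟨B1, hB1, hT⟩ := twistAll g h hg hg0 hh hh0 hhd
  obtain ⟨N, hN⟩ := exists_nat_ge B1
  refine ⟨2 * N, fun p u hu ht n hn => ?_⟩
  obtain ⟨a, b, hab⟩ := ht
  obtain ⟨S, hS⟩ : ∃ S : ℝ, S = size p := ⟨_, rfl⟩
  have hlen := length_le p
  have hlen1 := hu.2.1
  have hS1 : 1 ≤ S := by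
    rw [hS]
    exact_mod_cast (by omega : 1 ≤ size p)
  have hmA : (g.scaleRoots a).Monic := (monic_scaleRoots_iff a).2 hg
  have hmB : (h.scaleRoots b).Monic := (monic_scaleRoots_iff b).2 hh
  have hdeg : g.natDegree + h.natDegree = p.1.length := by
    have h1 := hmA.natDegree_mul hmB
    rw [← hab, chp_eq, charPoly_natDegree, natDegree_scaleRoots, natDegree_scaleRoots] at h1
    exact h1.symm
  have hc0 := chp_zero p.1 hu.2.1 hu.2.2.1
  have hc0' : (chp p.1).coeff 0 = g.coeff 0 * a ^ g.natDegree * (h.coeff 0 * b ^ h.natDegree) := by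
    rw [hab, mul_coeff_zero, coeff_scaleRoots, coeff_scaleRoots, Nat.sub_zero, Nat.sub_zero]
  have hdvd : ∀ x : ℤ, x ∣ (chp p.1).coeff 0 → x ≠ 0 ∧ |(x : ℝ)| ≤ Real.exp S := by
    intro x hx
    have h4 : |x| ≤ |(chp p.1).coeff 0| := Int.le_of_dvd (abs_pos.2 hc0) ((abs_dvd_abs _ _).2 hx)
    have h5 : |(x : ℝ)| ≤ |((chp p.1).coeff 0 : ℝ)| := by exact_mod_cast h4
    rw [hS]
    refine ⟨?_, h5.trans (chp_coeff_le p 0)⟩
    rintro rfl
    exact hc0 (zero_dvd_iff.1 hx)
  obtain ⟨ha0, haS⟩ := hdvd a (by
    rw [hc0']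
    exact dvd_mul_of_dvd_left (dvd_mul_of_dvd_right (dvd_pow_self a (by omega)) _) _)
  obtain ⟨hb0, hbS⟩ := hdvd b (by
    rw [hc0']
    exact dvd_mul_of_dvd_right (dvd_mul_of_dvd_right (dvd_pow_self b (by omega)) _) _)
  obtain ⟨h1, h2⟩ := hT a b u S ha0 hb0 hS1 haS hbS
    (by
      rw [← hab, chp_eq]
      exact ann_of_isSeq (isSeq_of hu))
    (fun i => by
      rw [← hab, hS]
      exact chp_coeff_le p i)
    (fun i hi => by
      rw [hdeg] at hi
      rw [hu.2.2.2.1 i hi, hS]
      refine entry_le p _ (List.mem_append_right _ (getD_mem ?_))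
      rw [← hu.1]
      exact hi) n hn
  have hSS : S ^ 2 = ((size p ^ 2 : ℕ) : ℝ) := by
    rw [hS]
    push_cast
    rfl
  have hle : B1 * S ^ 2 ≤ ((N * size p ^ 2 : ℕ) : ℝ) := by
    rw [hSS]
    push_cast
    exact mul_le_mul_of_nonneg_right hN (by positivity)
  constructor
  · rcases Nat.eq_zero_or_pos n with rfl | hn0
    · exact Nat.zero_le _
    · have hn0' : (0 : ℝ) < n := by exact_mod_cast hn0
      have h2 : (n : ℝ) ≤ Real.exp ((N * size p ^ 2 : ℕ) : ℝ) :=
        (Real.log_le_iff_le_exp hn0').1 (h1.trans hle)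
      have h3 : Real.exp ((N * size p ^ 2 : ℕ) : ℝ) ≤ ((2 ^ (2 * N * size p ^ 2) : ℕ) : ℝ) := by
        have e1 : Real.exp 1 ≤ 4 := by
          have := Real.exp_one_lt_d9
          linarith
        have e2 : Real.exp ((N * size p ^ 2 : ℕ) : ℝ) = (Real.exp 1) ^ (N * size p ^ 2) := by
          rw [← Real.exp_nat_mul, mul_one]
        have e3 : ((2 ^ (2 * N * size p ^ 2) : ℕ) : ℝ) = (4 : ℝ) ^ (N * size p ^ 2) := by
          push_cast
          rw [mul_assoc, pow_mul]
          norm_num
        rw [e2, e3]
        exact pow_le_pow_left₀ (Real.exp_pos _).le e1 _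
      exact_mod_cast h2.trans h3
  · intro hsq
    rw [hab] at hsq
    have h3 : n ≤ N * size p ^ 2 := by exact_mod_cast (h2 hsq).trans hle
    refine h3.trans ?_
    rw [mul_assoc]
    omega

theorem result :
    -- one algorithm, which reads any linear recurrence sequence and lists isolated zeros of it
    ∃ A : List ℤ × List ℤ → List ℕ, Computable A ∧
      (∀ p u, IsLRS p u → ∀ n ∈ A p, Isolated u n) ∧
      -- for all monic polynomials `g` and `h`
      ∀ g h : ℤ[X], g.Monic → 1 ≤ g.natDegree → h.Monic → 1 ≤ h.natDegree →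
        -- the list is complete for all but finitely many inputs of the family
        {p | ∃ u, IsLRS p u ∧ Twisted g h p.1 ∧ ∃ n, Isolated u n ∧ n ∉ A p}.Finite ∧
        -- because the isolated zeros are bounded in terms of the size of the input
        (∃ B : ℕ, ∀ p u, IsLRS p u → Twisted g h p.1 → ∀ n, Isolated u n →
          n ≤ 2 ^ (B * size p ^ 2) ∧
            (Squarefree ((chp p.1).map (Int.castRingHom ℚ)) → n ≤ B * size p ^ 2)) ∧
        -- and so the Skolem Problem is decidable for the sequences of the family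
        ∃ D : List ℤ × List ℤ → Prop, ComputablePred D ∧ ∀ p u, IsLRS p u →
          Twisted g h p.1 → (D p ↔ ∃ n, u n = 0) := by
  have hsz := computable_size
  have hcS : ComputablePred (fun x : (List ℤ × List ℤ) × ℕ => Spor (cv x.1) x.2) :=
    cp_comp cp_Spor (f := fun x : (List ℤ × List ℤ) × ℕ => (cv x.1, x.2))
      ((computable_cv.comp Computable.fst).pair Computable.snd)
  obtain ⟨A, hA, hAm⟩ := exists_list (fun p n => Spor (cv p) n) hcS
    (fun p => 2 ^ (size p ^ 3) + 1) (by fun_prop)
  refine ⟨A, hA, fun p u hu n hn => (spor_iff' hu n).1 ((hAm p n).1 hn).2, ?_⟩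
  intro g h hg hgd hh hhd
  obtain ⟨B, hB⟩ := bound' g h hg hgd hh hhd
  refine ⟨?_, ⟨B, hB⟩, ?_⟩
  · refine (finite_size B).subset ?_
    rintro p ⟨u, hu, hf, n, hn, hnA⟩
    show size p ≤ B
    by_contra hcon
    rw [not_le] at hcon
    apply hnA
    rw [hAm, spor_iff' hu]
    refine ⟨Nat.lt_succ_of_le ((hB p u hu hf n hn).1.trans ?_), hn⟩
    refine Nat.pow_le_pow_right (by norm_num) ?_
    rw [pow_succ' (size p) 2]
    exact Nat.mul_le_mul_right _ hcon.le
  · refine ⟨fun p => (∃ n < 2 ^ (B * size p ^ 2) + 1, Spor (cv p) n) ∨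
      ∃ r < Tf (cv p), ¬ nz (cv p) r, ?_, ?_⟩
    · refine cp_or ?_ ?_
      · refine cp_ex (p := fun (p : List ℤ × List ℤ) n => Spor (cv p) n) hcS ?_
        fun_prop
      · refine cp_ex (p := fun (p : List ℤ × List ℤ) r => ¬ nz (cv p) r) ?_
          (cTf.comp computable_cv)
        exact ComputablePred.not (cp_comp cp_nz
          (f := fun x : (List ℤ × List ℤ) × ℕ => (cv x.1, x.2))
          ((computable_cv.comp Computable.fst).pair Computable.snd))
    · intro p u hu hf
      have hu' := hu
      obtain ⟨hv, rfl⟩ := (isLRS_iff _ _).1 hu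
      constructor
      · rintro (⟨n, _, h2⟩ | ⟨r, _, h2⟩)
        · exact ⟨n, ((spor_iff' hu' n).1 h2).1⟩
        · exact ⟨_, zero_class hv h2 0⟩
      · rintro ⟨n, hn⟩
        by_cases hz : nz (cv p) (n % Tf (cv p))
        · have hS : Spor (cv p) n := ⟨hv, (iv_eq_zero _).1 hn, hz⟩
          exact Or.inl ⟨n, Nat.lt_succ_of_le (hB p _ hu' hf n ((spor_iff' hu' n).1 hS)).1, hS⟩
        · exact Or.inr ⟨_, Nat.mod_lt _ (Tf_pos _), hz⟩

end Pool.Agent.Results.MP_8d13b5_lc.TwistedFactors
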